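import Pool.Agent.H22.HD.Stmts

/-! # Project HD, module PRN: norm of a product over independent blocks -/

set_option autoImplicit false

open MeasureTheory ProbabilityTheory

namespace Pool.Agent.H22.HD

/-- different factors -/
theorem PRN_gen {𝕜 : Type} [RCLike 𝕜] {Ω : Type} [MeasurableSpace Ω] {μ : Measure Ω}
    [IsProbabilityMeasure μ] {p : ℝ} (hp : 1 ≤ p) {m : ℕ} (φ : Fin m → Ω → 𝕜)
    (hφ : ∀ j, Measurable (φ j)) :
    eLpNorm (fun x : Fin m → Ω => ∏ j, φ j (x j)) (ENNReal.ofReal p) (Measure.pi fun _ => μ) =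
      ∏ j, eLpNorm (φ j) (ENNReal.ofReal p) μ := by
  have hp0 : ENNReal.ofReal p ≠ 0 := by
    rw [Ne, ENNReal.ofReal_eq_zero, not_le]; linarith
  have hpt : ENNReal.ofReal p ≠ ⊤ := ENNReal.ofReal_ne_top
  have htr : (ENNReal.ofReal p).toReal = p := ENNReal.toReal_ofReal (by linarith)
  rw [eLpNorm_eq_lintegral_rpow_enorm_toReal hp0 hpt, htr]
  have h1 : ∀ j, eLpNorm (φ j) (ENNReal.ofReal p) μ = (∫⁻ x, ‖φ j x‖ₑ ^ p ∂μ) ^ (1 / p) := by
    intro j
    rw [eLpNorm_eq_lintegral_rpow_enorm_toReal hp0 hpt, htr]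
  simp only [h1]
  have h2 : ∀ x : Fin m → Ω, ‖∏ j, φ j (x j)‖ₑ ^ p = ∏ j, ‖φ j (x j)‖ₑ ^ p := by
    intro x
    rw [ENNReal.prod_rpow_of_nonneg (by linarith)]
    congr 1
    rw [← ofReal_norm, norm_prod, ENNReal.ofReal_prod_of_nonneg (fun _ _ => norm_nonneg _)]
    apply Finset.prod_congr rfl
    intro j _
    rw [ofReal_norm]
  simp only [h2]
  have hX : iIndepFun (fun (j : Fin m) (x : Fin m → Ω) => ‖φ j (x j)‖ₑ ^ p)
      (Measure.pi fun _ => μ) :=
    iIndepFun_pi (μ := fun _ : Fin m => μ) (X := fun j y => ‖φ j y‖ₑ ^ p)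
      (fun j => ((hφ j).enorm.pow_const p).aemeasurable)
  rw [lintegral_prod_eq_prod_lintegral_of_indepFun Finset.univ _ hX
    (fun j => ((hφ j).comp (measurable_pi_apply j)).enorm.pow_const p)]
  rw [← ENNReal.prod_rpow_of_nonneg (by positivity)]
  apply Finset.prod_congr rfl
  intro j _
  congr 1
  have hm : Measurable fun y : Ω => ‖φ j y‖ₑ ^ p := (hφ j).enorm.pow_const p
  exact (measurePreserving_eval (fun _ : Fin m => μ) j).lintegral_comp hm

theorem prn_thm : PRNStmt := by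
  intro 𝕜 _ Ω _ μ _ p hp m φ hφ
  rw [PRN_gen hp (fun _ => φ) (fun _ => hφ), Finset.prod_const, Finset.card_univ, Fintype.card_fin]

end Pool.Agent.H22.HD
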