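import Pool.Agent.H22.HD.Stmts

/-! # Project HD, module TAL: products of functions of different blocks -/

set_option autoImplicit false

open MeasureTheory ProbabilityTheory
open scoped Pointwise

namespace Pool.Agent.H22.HD

/-- generators depending on the blocks in `S` -/
def TAL_G (ι : Type) [Fintype ι] (m d : ℕ) (S : Finset (Fin m)) :
    Set ((Fin m × ι → ℝ) → ℝ) :=
  {g | ∃ α : Fin m → ι → ℕ, (∀ j ∈ S, d ≤ ∑ i, α j i) ∧
    g = fun x => ∏ j ∈ S, ∏ i, Polynomial.aeval (x (j, i)) (Polynomial.hermite (α j i))}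

theorem TAL_single {ι : Type} [Fintype ι] {m d : ℕ} {f : (ι → ℝ) → ℝ} (hf : f ∈ TT ι d)
    (a : Fin m) : (fun x : Fin m × ι → ℝ => f (blk x a)) ∈
      Submodule.span ℝ (TAL_G ι m d {a}) := by
  let T : ((ι → ℝ) → ℝ) →ₗ[ℝ] ((Fin m × ι → ℝ) → ℝ) :=
    { toFun := fun g x => g (blk x a)
      map_add' := fun _ _ => rfl
      map_smul' := fun _ _ => rfl }
  have h1 : T f ∈ Submodule.map T (TT ι d) := Submodule.mem_map_of_mem hf
  unfold TT at h1
  rw [Submodule.map_span] at h1
  refine (Submodule.span_mono ?_) h1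
  rintro _ ⟨g, ⟨α, hα, rfl⟩, rfl⟩
  refine ⟨fun _ => α, ?_, ?_⟩
  · intro j _; exact hα
  · funext x
    rw [Finset.prod_singleton]
    rfl

theorem TAL_prod {ι : Type} [Fintype ι] {m d : ℕ} {f : (ι → ℝ) → ℝ} (hf : f ∈ TT ι d)
    (S : Finset (Fin m)) : (fun x : Fin m × ι → ℝ => ∏ j ∈ S, f (blk x j)) ∈
      Submodule.span ℝ (TAL_G ι m d S) := by
  classical
  induction S using Finset.induction_on with
  | empty =>
    apply Submodule.subset_span
    exact ⟨fun _ _ => 0, by simp, by simp⟩
  | insert a S ha ih =>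
    have h1 := Submodule.mul_mem_mul (TAL_single hf a) ih
    rw [Submodule.span_mul_span] at h1
    have h2 : (fun x : Fin m × ι → ℝ => ∏ j ∈ insert a S, f (blk x j)) =
        (fun x : Fin m × ι → ℝ => f (blk x a)) *
          (fun x : Fin m × ι → ℝ => ∏ j ∈ S, f (blk x j)) := by
      funext x
      rw [Finset.prod_insert ha]
      rfl
    rw [h2]
    refine (Submodule.span_mono ?_) h1
    rintro _ ⟨_, ⟨α, hα, rfl⟩, _, ⟨β, hβ, rfl⟩, rfl⟩
    refine ⟨fun j => if j = a then α j else β j, ?_, ?_⟩
    · intro j hj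
      rw [Finset.mem_insert] at hj
      show d ≤ ∑ i, (if j = a then α j else β j) i
      by_cases hja : j = a
      · rw [if_pos hja]
        exact hα j (by rw [hja]; exact Finset.mem_singleton_self _)
      · rw [if_neg hja]
        exact hβ j (hj.resolve_left hja)
    · funext x
      rw [Finset.prod_insert ha]
      simp only [Pi.mul_apply, Finset.prod_singleton, if_true]
      congr 1
      apply Finset.prod_congr rfl
      intro j hj
      have hja : j ≠ a := by rintro rfl; exact ha hj
      rw [if_neg hja]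

theorem tal_thm : TALStmt := by
  classical
  intro ι _ m d f hf S
  refine (Submodule.span_mono ?_) (TAL_prod hf S)
  rintro _ ⟨α, hα, rfl⟩
  refine ⟨fun q => if q.1 ∈ S then α q.1 q.2 else 0, ?_, ?_⟩
  · rw [Fintype.sum_prod_type]
    have h1 : ∑ j : Fin m, ∑ i, (if j ∈ S then α j i else 0) = ∑ j ∈ S, ∑ i, α j i := by
      rw [← Finset.sum_filter_add_sum_filter_not Finset.univ (fun j => j ∈ S)]
      have e1 : ∑ j ∈ Finset.univ.filter (fun j => j ∈ S), ∑ i, (if j ∈ S then α j i else 0) =
          ∑ j ∈ S, ∑ i, α j i := by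
        have : Finset.univ.filter (fun j : Fin m => j ∈ S) = S := by
          ext j; simp
        rw [this]
        apply Finset.sum_congr rfl
        intro j hj
        apply Finset.sum_congr rfl
        intro i _
        rw [if_pos hj]
      have e2 : ∑ j ∈ Finset.univ.filter (fun j => ¬ j ∈ S), ∑ i, (if j ∈ S then α j i else 0) =
          0 := by
        apply Finset.sum_eq_zero
        intro j hj
        apply Finset.sum_eq_zero
        intro i _
        rw [if_neg (Finset.mem_filter.1 hj).2]
      rw [e1, e2, add_zero]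
    show S.card * d ≤ ∑ j : Fin m, ∑ i, (if j ∈ S then α j i else 0)
    rw [h1]
    calc S.card * d = ∑ _j ∈ S, d := by rw [Finset.sum_const, smul_eq_mul]
      _ ≤ _ := Finset.sum_le_sum hα
  · funext x
    rw [Fintype.prod_prod_type]
    apply Finset.prod_subset_one_on_sdiff (Finset.subset_univ S)
    · intro j hj
      rw [Finset.mem_sdiff] at hj
      apply Finset.prod_eq_one
      intro i _
      simp [hj.2]
    · intro j hj
      apply Finset.prod_congr rfl
      intro i _
      simp [hj]

end Pool.Agent.H22.HD
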